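import Pool.Agent.X39.Near.MasterI
import Pool.Agent.X255.RH.Nome

/-!
# Points and values `j`, `j'`, `j''` at ALL algebraic nomes close to any number outside a set of dimension zero

For an algebraic number `x`, `|x| > 1`, let `z = i log x / 2π`, so that `e^(2πi z) = 1 / x` (the algebraic number `1 / x`
has the same height as `x`). We consider the points `z`, `s_1 z, …, s_p z`, where the real numbers `s_k > 0` are such that
`1, s_1, …, s_p` are linearly independent over `ℚ`. The modular Schanuel conjecture predicts that the field generated by the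
`n` points and the values of `j` at them has transcendence degree at least `n`, if no point is a CM point and no two are
equivalent under `GL_2^+(ℚ)`. Outside ONE set of complex numbers `y` of Hausdorff dimension `0`, for all number fields
`F ⊂ ℂ`, all `ω > 0`, `d` and `A` there are `B` and `T₁` such that for all `T ≥ T₁` and ALL `x ∈ F` of height at most `T`
with `|x - y| ≤ T ^ (-ω)` (`|x| > 1`, not on the negative real axis) the numbers `log x`, `x ^ s_k` and the values of `j`,
`j'`, `j''` at all these points satisfy no relation of degree at most `d` with coefficients which are polynomials of degree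
at most `d` in the `u_k(x) / w(x)` and in given complex numbers `ξ_i` (for instance `π` and the `s_k`), with coefficients
in `F` of height at most `T ^ A`, not even up to `T ^ (-B)`. In particular this holds at the convergents of all irrational
real numbers `> 1` outside this set, from some point on.
-/

set_option autoImplicit false

open MeasureTheory NumberField

namespace Pool.Agent.Results.MP_47914d_nt.ApproximationsOfAllNumbers

open Pool.Agent.X39.Near (Size Dependent)

/-- the normalised Eisenstein series of weight `4` -/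
noncomputable def E4 (τ : ℂ) : ℂ :=
  1 + 240 * ∑' m : ℕ, ((ArithmeticFunction.sigma 3 (m + 1) : ℕ) : ℂ) *
    Complex.exp (2 * (Real.pi : ℂ) * Complex.I * τ) ^ (m + 1)

/-- the normalised Eisenstein series of weight `6` -/
noncomputable def E6 (τ : ℂ) : ℂ :=
  1 - 504 * ∑' m : ℕ, ((ArithmeticFunction.sigma 5 (m + 1) : ℕ) : ℂ) *
    Complex.exp (2 * (Real.pi : ℂ) * Complex.I * τ) ^ (m + 1)

/-- the modular invariant `j = q⁻¹ + 744 + 196884 q + ⋯` -/
noncomputable def j (τ : ℂ) : ℂ := 1728 * E4 τ ^ 3 / (E4 τ ^ 3 - E6 τ ^ 2)

/-- `exp (-2πi z), j (z), j' (z), j'' (z)` (complex derivatives) -/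
noncomputable def jet (z : ℂ) : Fin 4 → ℂ :=
  ![Complex.exp (-(2 * (Real.pi : ℂ) * Complex.I * z)), j z, deriv j z, deriv (deriv j) z]

/-- the point `z = i log x / 2π` (principal logarithm), `exp (-2πi z) = x` -/
noncomputable def point (x : ℂ) : ℂ := Complex.I * Complex.log x / (2 * (Real.pi : ℂ))

/-- the functions: `log x`; `j, j', j''` at `z = point x`; `exp (-2πi s_k z) = x ^ s_k, j, j', j''` at `s_k z` -/
noncomputable def values {p : ℕ} (s : Fin p → ℝ) : Option (Fin 3) ⊕ (Fin p × Fin 4) → ℂ → ℂ
  | Sum.inl none, x => Complex.log x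
  | Sum.inl (some i), x => jet (point x) i.succ
  | Sum.inr (k, i), x => jet ((s k : ℂ) * point x) i

/-- the `x` outside the closed unit disc and the negative real axis -/
def outer : Set ℂ := Complex.slitPlane ∩ {x | 1 < ‖x‖}

/-- **Theorem.** Let `s_1, …, s_p > 0` be such that `1, s_1, …, s_p` are linearly independent over `ℚ` (for
instance `p = 0`); let `u_k`, `w` be complex polynomials, `w` without zeros on `outer`, and `ξ_1, …, ξ_g` complex
numbers. There is a set `E` of complex numbers of Hausdorff dimension `0` such that: (1) for all `x ∈ outer` outside `E`, all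
number fields `F` with an embedding `ι` in `ℂ`, all `d`, `A` and `ω > 0` there are `B`, `T₁` such that for all
`T ≥ T₁` and all `t ∈ F`, quotients of integers with conjugates at most `T`, with `|ι t - x| ≤ T ^ (-ω)`, the
values of these functions at `t` are not dependent; (2) for all irrational real `x ∈ outer` outside `E` and all `d`,
`A` there is `B` such that the values at the convergents `t` of `x` are not dependent over `ℚ`, at the level of
the denominator, from some point on. -/
theorem result {p q g : ℕ} (s : Fin p → ℝ) (hs0 : ∀ k, 0 < s k)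
    (hs : ∀ (c0 : ℤ) (c : Fin p → ℤ), (c0 : ℝ) + ∑ k, (c k : ℝ) * s k = 0 → c0 = 0 ∧ c = 0)
    (u : Fin q → Polynomial ℂ) (w : Polynomial ℂ) (hw : ∀ t ∈ outer, w.eval t ≠ 0) (ξ : Fin g → ℂ) :
    ∃ E : Set ℂ, dimH E = 0 ∧
      (∀ x ∈ outer, x ∉ E → ∀ (F : Type) [Field F] [NumberField F] (ι : F →+* ℂ)
        (d A : ℕ) (ω : ℝ), 0 < ω → ∃ B T₁ : ℝ, ∀ T : ℝ, T₁ ≤ T → ∀ t : F, Size F T t →
          ‖ι t - x‖ ≤ T ^ (-ω) → ¬ Dependent (values s) u w ξ F ι d A B T t) ∧
      ∀ x : ℝ, Irrational x → (x : ℂ) ∈ outer → (x : ℂ) ∉ E → ∀ d A : ℕ, ∃ (B : ℝ) (n₀ : ℕ), ∀ k : ℕ,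
        n₀ ≤ k → ¬ Dependent (values s) u w ξ ℚ (algebraMap ℚ ℂ) d A B (x.convergent k).den
          (x.convergent k) := by
  have hval : Pool.Agent.X255.RH.fN s = values s := by
    funext w x
    rcases w with (_ | i) | ⟨k, i⟩
    · rfl
    · rfl
    · rfl
  have han : ∀ w, AnalyticOnNhd ℂ (values s w) outer := by
    intro w
    rw [← hval]
    exact Pool.Agent.X255.RH.fN_an s hs0 w
  have hind : Pool.Agent.X255.RH.Indep outer (values s) := by
    rw [← hval]
    exact Pool.Agent.X255.RH.fN_indep s hs0 hs
  exact Pool.Agent.X39.Near.master_indep outer Pool.Agent.X255.RH.ext1_open Pool.Agent.X255.RH.ext1_pre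
    (values s) han hind u w hw ξ

end Pool.Agent.Results.MP_47914d_nt.ApproximationsOfAllNumbers
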