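import Pool.Agent.X255.RH.Nome

/-!
# Points and values `j`, `j'`, `j''` at almost all algebraic nomes, ordered by height, jointly for all conjugates

For an algebraic number `x`, `|x| > 1`, let `z = i log x / 2π`, so that `e^(2πi z) = 1 / x` (the algebraic number `1 / x`
has the same height as `x`). We consider the points `z`, `s_1 z, …, s_p z`, where the real numbers `s_k > 0` are such that
`1, s_1, …, s_p` are linearly independent over `ℚ`, for all conjugates `x` of an algebraic number with `|x| > 1`, not on the
negative real axis. The modular Schanuel conjecture predicts that the field generated by the `n` points and the values of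
`j` at them has transcendence degree at least `n`, if no point is a CM point and no two are equivalent under `GL_2^+(ℚ)`.
We prove for 100% of the integral polynomials of degree `g`, ordered by the maximum `T` of the absolute values of the
coefficients, that the numbers `log x`, `x ^ s_k` and the values of `j`, `j'`, `j''` at all these points satisfy no
relation whose degree, and the degree of whose coefficient field, is at most `ω (T)`, and whose coefficients are of size
at most `T ^ ω (T)`, where `ω (T) → ∞`; the coefficients may also contain arbitrary fixed complex numbers `ξ_b`, for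
instance monomials in `π` and the `s_k`. In this sense all these numbers (in particular the `n` values of `j`, and the
points) are algebraically independent, even over `ℚ (π, s_1, …, s_p)`, up to the obvious relations between the points.

Proof: `Pool.Agent.X255.NP` (the norm to `ℚ` of a relation over the field generated by all roots, a nonstandard version of
the Bombieri-Pila method), the algebraic independence of the functions `z`, `e^(-2πi z)`, `e^(-2πi s_k z)` and `j`, `j'`,
`j''` at `z`, `s_k z` (Mahler; `Pool.Agent.TH21.MS`, `Pool.Agent.Y771.KF`), a change of variable, and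
`Pool.Agent.X255.RH` (independence of functions of different variables; almost no integral polynomial has close roots or
roots close to a given line).
-/

set_option autoImplicit false

open Polynomial Filter NumberField
open scoped Classical

namespace Pool.Agent.Results.MP_47914d_nt.ConjugateNomes

/-- the normalised Eisenstein series of weight `4` -/
noncomputable def E4 (τ : ℂ) : ℂ :=
  1 + 240 * ∑' m : ℕ, ((ArithmeticFunction.sigma 3 (m + 1) : ℕ) : ℂ) *
    Complex.exp (2 * (Real.pi : ℂ) * Complex.I * τ) ^ (m + 1)

/-- the normalised Eisenstein series of weight `6` -/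
noncomputable def E6 (τ : ℂ) : ℂ :=
  1 - 504 * ∑' m : ℕ, ((ArithmeticFunction.sigma 5 (m + 1) : ℕ) : ℂ) *
    Complex.exp (2 * (Real.pi : ℂ) * Complex.I * τ) ^ (m + 1)

/-- the modular invariant `j = q⁻¹ + 744 + 196884 q + ⋯` -/
noncomputable def j (τ : ℂ) : ℂ := 1728 * E4 τ ^ 3 / (E4 τ ^ 3 - E6 τ ^ 2)

/-- `exp (-2πi z), j (z), j' (z), j'' (z)` (complex derivatives) -/
noncomputable def jet (z : ℂ) : Fin 4 → ℂ :=
  ![Complex.exp (-(2 * (Real.pi : ℂ) * Complex.I * z)), j z, deriv j z, deriv (deriv j) z]

/-- the point `z = i log x / 2π` (principal logarithm), `exp (-2πi z) = x` -/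
noncomputable def point (x : ℂ) : ℂ := Complex.I * Complex.log x / (2 * (Real.pi : ℂ))

/-- the numbers: `log x`; `j, j', j''` at `z = point x`; `exp (-2πi s_k z) = x ^ s_k, j, j', j''` at `s_k z` -/
noncomputable def value {p : ℕ} (s : Fin p → ℝ) (x : ℂ) : Option (Fin 3) ⊕ (Fin p × Fin 4) → ℂ
  | Sum.inl none => Complex.log x
  | Sum.inl (some i) => jet (point x) i.succ
  | Sum.inr (k, i) => jet ((s k : ℂ) * point x) i

/-- the `x` outside the closed unit disc and the negative real axis -/
def outer : Set ℂ := Complex.slitPlane ∩ {x | 1 < ‖x‖}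

/-- the `x` with `|x| ≥ 1 + 1 / (k + 1)`, not on the negative real axis -/
def region (k : ℕ) : Set ℂ := Complex.slitPlane ∩ {x | 1 + 1 / ((k : ℝ) + 1) ≤ ‖x‖}

/-- the polynomial `a_g X ^ g + … + a_0` -/
noncomputable def poly {g : ℕ} (a : Fin (g + 1) → ℤ) : ℂ[X] := ∑ i, C (a i : ℂ) * X ^ (i : ℕ)

/-- the roots of the polynomial in the set `V` -/
noncomputable def rootsIn (V : Set ℂ) {g : ℕ} (a : Fin (g + 1) → ℤ) : Finset ℂ :=
  (poly a).roots.toFinset.filter fun z => z ∈ V

/-- The numbers `x q`, `q ∈ Q`, satisfy no relation of degree at most `k` in each of them with coefficients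
`∑ ξ b * c b`, `b < k`, where the `c b` are integers of a number field of degree at most `k`, all of whose conjugates
are of absolute value at most `T ^ k`, except the relations all of whose coefficients vanish. -/
def Unrelated {Q : Type} [Fintype Q] [DecidableEq Q] (ξ : ℕ → ℂ) (k : ℕ) (T : ℝ) (x : Q → ℂ) : Prop :=
  ∀ (F : Type) [Field F] [NumberField F], Module.finrank ℚ F ≤ k → ∀ (io : F →+* ℂ)
    (c : (Q → Fin (k + 1)) → Fin k → 𝓞 F), (∀ l b (φ : F →+* ℂ), ‖φ (c l b : F)‖ ≤ T ^ k) →
    ∑ l, (∑ b : Fin k, ξ b * io (c l b : F)) * ∏ q, x q ^ (l q : ℕ) = 0 → ∀ l, ∑ b : Fin k, ξ b * io (c l b : F) = 0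

/-- the `a` with `|a_i| ≤ T` -/
noncomputable def box (g T : ℕ) : Finset (Fin (g + 1) → ℤ) := Fintype.piFinset fun _ => Finset.Icc (-(T : ℤ)) T

/-- the numbers `value s x`, `x` all roots of `a` in the set `V`, are unrelated up to complexity `k` -/
def Free {g p : ℕ} (V : Set ℂ) (s : Fin p → ℝ) (ξ : ℕ → ℂ) (k : ℕ) (T : ℝ) (a : Fin (g + 1) → ℤ) : Prop :=
  Unrelated ξ k T fun q : {z // z ∈ rootsIn V a} × (Option (Fin 3) ⊕ (Fin p × Fin 4)) => value s q.1 q.2

/-- `a` is of degree `g`, with simple roots, and `Free` for the roots in `region k` -/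
def Good {g p : ℕ} (s : Fin p → ℝ) (ξ : ℕ → ℂ) (k : ℕ) (T : ℝ) (a : Fin (g + 1) → ℤ) : Prop :=
  a (Fin.last g) ≠ 0 ∧ (poly a).Separable ∧ Free (region k) s ξ k T a

/-- `a` is of degree `g`, its roots are simple, of absolute value at most `R`, at distance at least `η` from each other,
and the roots in `V` are at distance at least `η` from the complement of `V` -/
def Position (V : Set ℂ) (R η : ℝ) {g : ℕ} (a : Fin (g + 1) → ℤ) : Prop :=
  a (Fin.last g) ≠ 0 ∧ (poly a).Separable ∧ ∀ z, (poly a).eval z = 0 → ‖z‖ ≤ R ∧
    (∀ w, (poly a).eval w = 0 → w ≠ z → η ≤ ‖z - w‖) ∧ (z ∈ V → Metric.ball z η ⊆ V)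


/-- **Theorem.** Let `g ≥ 1`, let `s_1, …, s_p > 0` be such that `1, s_1, …, s_p` are linearly independent over `ℚ` (for
instance `p = 0`), and let `ξ` be a sequence of complex numbers.
(1) There is a monotone `ω`, `ω(T) → ∞`, such that the proportion of the polynomials with `|a_i| ≤ T` which are not
`Good` with `k = ω(T)` is at most `1 / ω(T)`.
(2) For fixed `k`, `R`, `η > 0` and `ε > 0`, all but `C T ^ (g + ε)` of the polynomials with `|a_i| ≤ T` whose roots
are in the compact position `Position outer R η` are `Free` for the roots in `outer` (there are about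
`(2 T) ^ (g + 1)` polynomials). -/
theorem result (g p : ℕ) (hg : 0 < g) (s : Fin p → ℝ) (hs0 : ∀ k, 0 < s k)
    (hs : ∀ (c0 : ℤ) (c : Fin p → ℤ), (c0 : ℝ) + ∑ k, (c k : ℝ) * s k = 0 → c0 = 0 ∧ c = 0) (ξ : ℕ → ℂ) :
    (∃ ω : ℕ → ℕ, Tendsto ω atTop atTop ∧ Monotone ω ∧ ∀ T,
      ω T * ((box g T).filter fun a => ¬ Good s ξ (ω T) T a).card ≤ (box g T).card) ∧
    ∀ (k : ℕ) (R η ε : ℝ), 0 < η → 0 < ε → ∃ C : ℝ, ∀ T : ℕ, 1 ≤ T →
      (((box g T).filter fun a => Position outer R η a ∧ ¬ Free outer s ξ k T a).card : ℝ) ≤
        C * (T : ℝ) ^ ((g : ℝ) + ε) := by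
  have hpre : IsPreconnected outer := Pool.Agent.X255.RH.ext1_pre
  have hop : IsOpen outer := Pool.Agent.X255.RH.ext1_open
  have htame : ∀ k, Pool.Agent.X255.RH.Tame (region k) outer := by
    intro k
    refine Pool.Agent.X255.RH.tame_slit.inter (Pool.Agent.X255.RH.tame_ext ?_)
    have : (0 : ℝ) < 1 / ((k : ℝ) + 1) := by positivity
    linarith
  have hval : ∀ w, Pool.Agent.X255.RH.fN s w = fun x => value s x w := by
    rintro ((_ | i) | ⟨k, i⟩)
    · rfl
    · rfl
    · rfl
  have han : ∀ w, AnalyticOnNhd ℂ (fun x => value s x w) outer := by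
    intro w
    rw [← hval]
    exact Pool.Agent.X255.RH.fN_an s hs0 w
  have hind : Pool.Agent.X255.RH.Indep outer (fun w x => value s x w) := by
    rw [← show Pool.Agent.X255.RH.fN s = fun w x => value s x w from funext hval]
    exact Pool.Agent.X255.RH.fN_indep s hs0 hs
  have h1 := Pool.Agent.X255.RH.main_all (g := g) hg hpre hop region htame han hind ξ
  refine ⟨h1, fun k R η ε hη hε => ?_⟩
  have h2 := Pool.Agent.X255.RH.main_eps (g := g) hg hpre hop han hind outer ξ k R η ε hη hε
  exact h2

end Pool.Agent.Results.MP_47914d_nt.ConjugateNomes
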