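import Pool.Agent.Y776.AxJ.Alg
import Pool.Agent.Y776.Cv.Pad
import Pool.Agent.X255.RH.Loc
import Pool.Agent.X255.RH.Mea3

/-!
# Modular and exponential Schanuel conjecture along every analytic curve, at all roots of almost all polynomials

Let `τ_1, …, τ_n` be ANY nonconstant analytic functions on a connected open set `V` with values in the upper half-plane,
such that `j(τ_i)` and `j(τ_k)` are algebraically independent over `ℂ` for `i ≠ k`, and let `w_1, …, w_s` be any analytic
functions on `V` no nontrivial integral combination of which is constant (`s = 0` is allowed). We prove the modular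
Schanuel conjecture for the points `τ_i (z)`, together with Schanuel's conjecture for the numbers `w_k (z)`, in bounded
complexity, jointly for `z` ALL roots of a polynomial, for 100% of the integral polynomials of degree `g`, ordered by the
maximum `T` of the absolute values of the coefficients: there are `n + s` fixed functions among the `2 n + 2 s` functions
`τ_i`, `j(τ_i)`, `w_k`, `exp (w_k)` (the same ones for all `g` and all polynomials) whose values at the roots in `V` (at
distance at least `1 / (k + 1)` from the complement) satisfy no relation whose degree, and the degree of whose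
coefficient field, is at most `ω (T)`, and whose coefficients are of size at most `T ^ ω (T)`, where `ω (T) → ∞`; the
coefficients may also contain arbitrary fixed complex numbers. We also prove lower bounds, with arbitrary complex
coefficients.

Proof: `Pool.Agent.X255.NP` and `Pool.Agent.Y890.MV` (nonstandard versions of the Bombieri-Pila method), the Ax-Schanuel
theorem in the form `Pool.Agent.Y776.AxJ.exists_loc`, and `Pool.Agent.X255.RH` (independence of functions of different
variables; almost no integral polynomial has close roots).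
-/

set_option autoImplicit false

open Polynomial Filter NumberField
open scoped Classical

namespace Pool.Agent.Results.MP_47914d_nt.CurvesWithExponentials

/-- The lattice `ℤ + ℤ τ`. -/
noncomputable def lattice (τ : ℂ) (h : 0 < τ.im) : PeriodPair where
  ω₁ := 1
  ω₂ := τ
  indep := (Pool.Agent.Y685.LL ⟨τ, h⟩).indep

/-- The modular invariant `j = 1728 g₂³ / (g₂³ - 27 g₃²)` on the upper half-plane. -/
noncomputable def j (τ : ℂ) : ℂ :=
  if h : 0 < τ.im then 1728 * (lattice τ h).g₂ ^ 3 / ((lattice τ h).g₂ ^ 3 - 27 * (lattice τ h).g₃ ^ 2) else 0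

/-- The values `τ_i(z)`, `j(τ_i(z))`, `w_k(z)`, `exp(w_k(z))`. -/
noncomputable def value {n s : ℕ} (τ : Fin n → ℂ → ℂ) (w : Fin s → ℂ → ℂ) (z : ℂ) :
    (Fin n ⊕ Fin n) ⊕ (Fin s ⊕ Fin s) → ℂ
  | Sum.inl (Sum.inl i) => τ i z
  | Sum.inl (Sum.inr i) => j (τ i z)
  | Sum.inr (Sum.inl k) => w k z
  | Sum.inr (Sum.inr k) => Complex.exp (w k z)

/-- An analytic curve in `ℍ^n × ℂ^s`. -/
structure Curve (V : Set ℂ) {n s : ℕ} (τ : Fin n → ℂ → ℂ) (w : Fin s → ℂ → ℂ) : Prop where
  isOpen : IsOpen V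
  isPreconnected : IsPreconnected V
  nonempty : V.Nonempty
  analytic : ∀ i, AnalyticOnNhd ℂ (τ i) V
  im_pos : ∀ i, ∀ z ∈ V, 0 < (τ i z).im
  nonconstant : ∀ i, ∀ c, ∃ z ∈ V, τ i z ≠ c
  /-- two of the functions `j(τ_i)` are algebraically independent over `ℂ` -/
  independent : ∀ i k, i ≠ k → ∀ P : MvPolynomial (Fin 2) ℂ, P ≠ 0 →
    ∃ z ∈ V, MvPolynomial.eval ![j (τ i z), j (τ k z)] P ≠ 0
  analytic_w : ∀ k, AnalyticOnNhd ℂ (w k) V
  /-- no nontrivial combination with integral coefficients of the `w_k` is constant -/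
  independent_w : ∀ (m : Fin s → ℤ) (b : ℂ), (∀ z ∈ V, ∑ k, (m k : ℂ) * w k z = b) → m = 0

/-- the polynomial `a_g X ^ g + … + a_0` -/
noncomputable def poly {g : ℕ} (a : Fin (g + 1) → ℤ) : ℂ[X] := ∑ i, C (a i : ℂ) * X ^ (i : ℕ)

/-- the roots of the polynomial in the set `V` -/
noncomputable def rootsIn (V : Set ℂ) {g : ℕ} (a : Fin (g + 1) → ℤ) : Finset ℂ :=
  (poly a).roots.toFinset.filter fun z => z ∈ V

/-- The numbers `x q`, `q ∈ Q`, satisfy no relation of degree at most `k` in each of them with coefficients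
`∑ ξ b * c b`, `b < k`, where the `c b` are integers of a number field of degree at most `k`, all of whose conjugates
are of absolute value at most `T ^ k`, except the relations all of whose coefficients vanish. -/
def Unrelated {Q : Type} [Fintype Q] [DecidableEq Q] (ξ : ℕ → ℂ) (k : ℕ) (T : ℝ) (x : Q → ℂ) : Prop :=
  ∀ (F : Type) [Field F] [NumberField F], Module.finrank ℚ F ≤ k → ∀ (io : F →+* ℂ)
    (c : (Q → Fin (k + 1)) → Fin k → 𝓞 F), (∀ l b (φ : F →+* ℂ), ‖φ (c l b : F)‖ ≤ T ^ k) →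
    ∑ l, (∑ b : Fin k, ξ b * io (c l b : F)) * ∏ q, x q ^ (l q : ℕ) = 0 → ∀ l, ∑ b : Fin k, ξ b * io (c l b : F) = 0

/-- Every polynomial `P` of degree at most `k` in each of the numbers `x q`, with coefficients `∑ ξ b * c b`, `b < k`,
where the `c b` are rational integers of absolute value at most `T ^ k`, satisfies `|P (x)| ≥ T ^ (-B) |p|` for each of
its coefficients `p`. -/
def Measure {Q : Type} [Fintype Q] [DecidableEq Q] (ξ : ℕ → ℂ) (k : ℕ) (B T : ℝ) (x : Q → ℂ) : Prop :=
  ∀ c : (Q → Fin (k + 1)) → Fin k → ℤ, (∀ l b, |(c l b : ℝ)| ≤ T ^ k) → ∀ l₀,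
    T ^ (-B) * ‖∑ b : Fin k, ξ b * (c l₀ b : ℂ)‖ ≤
      ‖∑ l, (∑ b : Fin k, ξ b * (c l b : ℂ)) * ∏ q, x q ^ (l q : ℕ)‖

/-- the `a` with `|a_i| ≤ T` -/
noncomputable def box (g T : ℕ) : Finset (Fin (g + 1) → ℤ) := Fintype.piFinset fun _ => Finset.Icc (-(T : ℤ)) T

/-- the points whose distance to the complement of `V` is at least `1 / (k + 1)` -/
def region (V : Set ℂ) (k : ℕ) : Set ℂ := {z | Metric.ball z (1 / ((k : ℝ) + 1)) ⊆ V}

/-- the values of the chosen functions at all roots of `a` in the set `K` -/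
noncomputable def numbers {g n s m : ℕ} (K : Set ℂ) (τ : Fin n → ℂ → ℂ) (w : Fin s → ℂ → ℂ)
    (e : Fin m → (Fin n ⊕ Fin n) ⊕ (Fin s ⊕ Fin s)) (a : Fin (g + 1) → ℤ) (x : {z // z ∈ rootsIn K a} × Fin m) : ℂ :=
  value τ w x.1 (e x.2)

/-- `a` is of degree `g`, with simple roots, and the numbers at the roots in `region V k` are unrelated -/
def Good {g n s m : ℕ} (V : Set ℂ) (τ : Fin n → ℂ → ℂ) (w : Fin s → ℂ → ℂ)
    (e : Fin m → (Fin n ⊕ Fin n) ⊕ (Fin s ⊕ Fin s)) (ξ : ℕ → ℂ) (k : ℕ) (T : ℝ) (a : Fin (g + 1) → ℤ) : Prop :=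
  a (Fin.last g) ≠ 0 ∧ (poly a).Separable ∧ Unrelated ξ k T (numbers (region V k) τ w e a)

/-- `a` is of degree `g`, with simple roots, and the numbers at the roots in `region V k` satisfy the lower bounds -/
def GoodM {g n s m : ℕ} (V : Set ℂ) (τ : Fin n → ℂ → ℂ) (w : Fin s → ℂ → ℂ)
    (e : Fin m → (Fin n ⊕ Fin n) ⊕ (Fin s ⊕ Fin s)) (ξ : ℕ → ℂ) (k : ℕ) (B T : ℝ) (a : Fin (g + 1) → ℤ) : Prop :=
  a (Fin.last g) ≠ 0 ∧ (poly a).Separable ∧ Measure ξ k B T (numbers (region V k) τ w e a)

/-- `a` is of degree `g`, its roots are simple, of absolute value at most `R`, at distance at least `η` from each other,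
and the roots in `V` are at distance at least `η` from the complement of `V` -/
def Position (V : Set ℂ) (R η : ℝ) {g : ℕ} (a : Fin (g + 1) → ℤ) : Prop :=
  a (Fin.last g) ≠ 0 ∧ (poly a).Separable ∧ ∀ z, (poly a).eval z = 0 → ‖z‖ ≤ R ∧
    (∀ w, (poly a).eval w = 0 → w ≠ z → η ≤ ‖z - w‖) ∧ (z ∈ V → Metric.ball z η ⊆ V)

theorem j_eq {τ : ℂ} (h : 0 < τ.im) : j τ = Pool.Agent.Y776.jf τ := by
  have h1 : Pool.Agent.Y685.LC τ = lattice τ h := by
    rw [Pool.Agent.Y685.LC, UpperHalfPlane.ofComplex_apply_of_im_pos h]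
    rfl
  rw [j, dif_pos h, Pool.Agent.Y776.jf, h1]

theorem fmj {V : Set ℂ} {n s : ℕ} {τ : Fin n → ℂ → ℂ} {w : Fin s → ℂ → ℂ} (h : Curve V τ w) :
    Pool.Agent.Y776.AxJ.Fmj V τ w where
  op := h.isOpen
  conn := h.isPreconnected
  ne := h.nonempty
  ta := h.analytic
  im := h.im_pos
  nc := h.nonconstant
  ji := by
    intro i k hik P hP
    by_contra hne
    obtain ⟨z, hz, hz0⟩ := h.independent i k hik P hne
    apply hz0
    rw [← hP z hz]
    congr 2
    funext m
    fin_cases m
    · exact j_eq (h.im_pos i z hz)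
    · exact j_eq (h.im_pos k z hz)
  wa := h.analytic_w
  wi := h.independent_w

/-- the function is not a derivative of `j` -/
def Low {n s : ℕ} : Pool.Agent.Y776.AxJ.Nj n s → Prop
  | Sum.inl o => o.2.val < 2
  | Sum.inr _ => True

/-- the name of a function -/
def nm {n s : ℕ} : Pool.Agent.Y776.AxJ.Nj n s → (Fin n ⊕ Fin n) ⊕ (Fin s ⊕ Fin s)
  | Sum.inl o => if o.2.val = 0 then Sum.inl (Sum.inl o.1) else Sum.inl (Sum.inr o.1)
  | Sum.inr k => Sum.inr k

theorem nm_inj {n s : ℕ} {o o' : Pool.Agent.Y776.AxJ.Nj n s} (ho : Low o) (ho' : Low o') (h : nm o = nm o') : o = o' := by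
  rcases o with ⟨i, m⟩ | k <;> rcases o' with ⟨i', m'⟩ | k'
  · simp only [Low] at ho ho'
    by_cases h0 : m.val = 0 <;> by_cases h0' : m'.val = 0 <;> simp [nm, h0, h0'] at h
    · have hm : m = m' := Fin.ext (by omega)
      rw [h, hm]
    · have hm : m = m' := Fin.ext (by omega)
      rw [h, hm]
  · by_cases h0 : m.val = 0 <;> simp [nm, h0] at h
  · by_cases h0 : m'.val = 0 <;> simp [nm, h0] at h
  · simp only [nm, Sum.inr.injEq] at h
    rw [h]

theorem value_eq {V : Set ℂ} {n s : ℕ} {τ : Fin n → ℂ → ℂ} {w : Fin s → ℂ → ℂ} (h : Curve V τ w) {z : ℂ} (hz : z ∈ V)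
    (o : Pool.Agent.Y776.AxJ.Nj n s) (ho : Low o) : Pool.Agent.Y776.AxJ.yj τ w o z = value τ w z (nm o) := by
  rcases o with ⟨i, m⟩ | k | k
  · fin_cases m
    · rfl
    · exact (j_eq (h.im_pos i z hz)).symm
    · exact absurd ho (by simp [Low])
    · exact absurd ho (by simp [Low])
  · rfl
  · rfl

theorem choice_exists {n s : ℕ} (hn : 0 < n) {V : Set ℂ} {τ : Fin n → ℂ → ℂ} {w : Fin s → ℂ → ℂ} (hc : Curve V τ w) :
    ∃ e : Fin (n + s) → (Fin n ⊕ Fin n) ⊕ (Fin s ⊕ Fin s), Function.Injective e ∧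
      (∀ x, AnalyticOnNhd ℂ (fun z => value τ w z (e x)) V) ∧
      Pool.Agent.X255.RH.Indep V (fun x z => value τ w z (e x)) := by
  classical
  obtain ⟨e, he, hloc⟩ := Pool.Agent.Y776.AxJ.exists_loc (fmj hc) hn
  have hcard : n + s ≤ Fintype.card {x : Fin (3 * n + s) // Low (e x)} := by
    have h1 : Fintype.card {x : Fin (3 * n + s) // ¬ Low (e x)} ≤ Fintype.card (Fin n × Fin 2) := by
      have hex : ∀ x : {x : Fin (3 * n + s) // ¬ Low (e x)}, ∃ o : Fin n × Fin 2,
          e x.1 = Sum.inl (o.1, Fin.natAdd 2 o.2) := by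
        rintro ⟨x, hx⟩
        rcases hex : e x with ⟨i, m⟩ | k
        · rw [hex] at hx
          simp only [Low, not_lt] at hx
          refine ⟨(i, ⟨m.val - 2, by omega⟩), ?_⟩
          refine congrArg Sum.inl (Prod.ext rfl (Fin.ext ?_))
          simp only [Fin.val_natAdd]
          omega
        · rw [hex] at hx
          exact absurd trivial hx
      choose f hf using hex
      refine Fintype.card_le_of_injective f fun x y hxy => Subtype.ext (he ?_)
      rw [hf x, hf y, hxy]
    have h2 := Fintype.card_subtype_compl fun x => Low (e x)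
    simp only [Fintype.card_prod, Fintype.card_fin] at h1 h2
    omega
  obtain ⟨f⟩ : Nonempty (Fin (n + s) ↪ {x : Fin (3 * n + s) // Low (e x)}) := by
    apply Function.Embedding.nonempty_of_card_le
    rw [Fintype.card_fin]
    exact hcard
  refine ⟨fun x => nm (e (f x).1), fun x y h => ?_, fun x z hz => ?_, ?_⟩
  · exact f.injective (Subtype.ext (he (nm_inj (f x).2 (f y).2 h)))
  · refine (Pool.Agent.Y776.AxJ.yj_an (fmj hc) (e (f x).1) z hz).congr ?_
    filter_upwards [hc.isOpen.mem_nhds hz] with y hy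
    exact value_eq hc hy (e (f x).1) (f x).2
  · intro P hP
    have hloc' : ∀ t ∈ V, Pool.Agent.Y124.LocInd (fun x => Pool.Agent.Y776.AxJ.yj τ w (e (f x).1)) t := fun t ht =>
      Pool.Agent.Y776.Cv.LocInd.comp_inj (hloc t ht) (e := fun x => (f x).1)
        fun x y h => f.injective (Subtype.ext h)
    refine Pool.Agent.X255.RH.indep_of_loc hc.isOpen hc.nonempty hloc' P fun z hz => ?_
    rw [← hP z hz]
    unfold Pool.Agent.Y890.SP.evF
    congr 1
    funext x
    exact value_eq hc hz (e (f x).1) (f x).2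

/-- **Theorem.** Let `τ_1, …, τ_n`, `w_1, …, w_s` be as in `Curve`, `n ≥ 1`. For a certain choice of `n + s` of the functions `τ_i`,
`j(τ_i)`, `w_k`, `exp (w_k)` and all `g ≥ 1` the following holds.
(1) For every sequence `ξ` there is a monotone `ω`, `ω(T) → ∞`, such that the proportion of the polynomials with
`|a_i| ≤ T` which are not `Good` with `k = ω(T)` is at most `1 / ω(T)`.
(2) For every `k ≥ 1` there are `B` and `T₀` such that for `T ≥ T₀` and all `ξ` (which may depend on `T`) the proportion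
of the polynomials with `|a_i| ≤ T` which are not `GoodM` is at most `1 / k`.
(3) For fixed `k ≥ 1`, `R`, `η > 0` and `ε > 0` there are `B`, `C` such that for all `ξ` the lower bounds
`Measure ξ k B T` for the numbers at the roots in `V` hold for all but `C T ^ (g + ε)` of the polynomials with
`|a_i| ≤ T` whose roots are in the compact position `Position V R η` (there are about `(2 T) ^ (g + 1)` polynomials).
The choice `e` of `n + s` among the `2 n + 2 s` functions depends only on the curve, not on `g`. -/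
theorem result (n s : ℕ) (hn : 0 < n) (V : Set ℂ) 
    (τ : Fin n → ℂ → ℂ) (w : Fin s → ℂ → ℂ) (hc : Curve V τ w) :
    ∃ e : Fin (n + s) → (Fin n ⊕ Fin n) ⊕ (Fin s ⊕ Fin s), Function.Injective e ∧ ∀ g : ℕ, 0 < g →
    ((∀ ξ : ℕ → ℂ, ∃ ω : ℕ → ℕ, Tendsto ω atTop atTop ∧ Monotone ω ∧ ∀ T,
      ω T * ((box g T).filter fun a => ¬ Good V τ w e ξ (ω T) T a).card ≤ (box g T).card) ∧
    (∀ k : ℕ, 1 ≤ k → ∃ (B : ℝ) (T₀ : ℕ), ∀ T : ℕ, T₀ ≤ T → ∀ ξ : ℕ → ℂ,
      (k : ℝ) * ((box g T).filter fun a => ¬ GoodM V τ w e ξ k B T a).card ≤ (box g T).card) ∧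
    (∀ (k : ℕ) (R η ε : ℝ), 1 ≤ k → 0 < η → 0 < ε → ∃ B C : ℝ, ∀ T : ℕ, 1 ≤ T → ∀ ξ : ℕ → ℂ,
      (((box g T).filter fun a => Position V R η a ∧ ¬ Measure ξ k B T (numbers V τ w e a)).card : ℝ) ≤
        C * (T : ℝ) ^ ((g : ℝ) + ε))) := by
  have hop : IsOpen V := hc.isOpen
  have hpre : IsPreconnected V := hc.isPreconnected
  obtain ⟨e, he, han, hind⟩ := choice_exists hn hc
  refine ⟨e, he, fun g hg => ?_⟩

  refine ⟨fun ξ => ?_, fun k hk => ?_, fun k R η ε hk hη hε => ?_⟩
  · exact Pool.Agent.X255.RH.main_all (g := g) hg hpre hop (region V) (Pool.Agent.X255.RH.tame_deep V) han hind ξ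
  · exact Pool.Agent.X255.RH.mea_all (g := g) hg hpre hop (Pool.Agent.X255.RH.tame_deep V k) han hind k hk
  · exact Pool.Agent.X255.RH.mea_eps (g := g) hg hpre hop han hind V k R η ε hη hε

end Pool.Agent.Results.MP_47914d_nt.CurvesWithExponentials
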