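import Pool.Agent.X120.JG.Fin
import Pool.Agent.Y120.J.JDef

/-!
# The modular Schanuel conjecture for the isogeny classes of the points where `j` is a term of a geometric sequence

Let `b_1, …, b_k ≥ 2` be integers, not necessarily different. We prove that for almost all tuples of exponents
`(n_1, …, n_k)`, and for **all** points `z_i` which are equivalent under `GL_2^+(ℚ)` to points `w_i` with `j(w_i) = b_i^(n_i)`
or `j(w_i) = -b_i^(n_i)` (there is no bound for the degrees of the isogenies), the numbers `z_1, …, z_k` do not satisfy any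
polynomial relation of degree at most `δ`, with any coefficients in a given `ℚ`-vector space `V` of complex numbers of dimension
at most `D` (for example in a number field of degree `D`, or in the space of the polynomials of bounded degree in `π` and
`log b_1, …, log b_k`). At most `C N^(k-1) log N` of the `N^k` tuples in `[1, N]^k` are exceptional, with `C` depending only on
the `b_i`, `δ`, `D`. The degree `δ` and the dimension `D` may also grow with `N`, with `o(N^k)` exceptions. The numbers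
`j(z_i)` are algebraic, so that the conjecture predicts that `z_1, …, z_k` are algebraically independent, except for the
tuples where a `w_i` is a CM point or two of the `w_i` are equivalent.

The theorem `MP_47914d_nt.IsogenyClasses` on almost all tuples of integers `j(w_i)` in boxes, with a power saving, says
nothing about such sparse sequences.

Proof. At `X = 1/j(z)`, `2 π i z = log X + G(X)/F(X)` with the G-functions `F`, `G` of the hypergeometric equation of `j`.
A Hermite-Padé argument at the points `b^(-n)` for many `n` together shows that outside `C` exponents in each dyadic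
interval all relations between the values are specialisations of functional relations, and there are none; the logarithms
`n_i log b_i` go to the coefficients. A fractional linear substitution changes the degree of a relation by a bounded
factor only.
-/

set_option autoImplicit false

open Filter

namespace Pool.Agent.Results.MP_47914d_nt.GeometricIsogenyClasses

/-- the normalised Eisenstein series of weight `4` -/
noncomputable def E4 (τ : ℂ) : ℂ :=
  1 + 240 * ∑' m : ℕ, ((ArithmeticFunction.sigma 3 (m + 1) : ℕ) : ℂ) *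
    Complex.exp (2 * (Real.pi : ℂ) * Complex.I * ((m : ℂ) + 1) * τ)

/-- the normalised Eisenstein series of weight `6` -/
noncomputable def E6 (τ : ℂ) : ℂ :=
  1 - 504 * ∑' m : ℕ, ((ArithmeticFunction.sigma 5 (m + 1) : ℕ) : ℂ) *
    Complex.exp (2 * (Real.pi : ℂ) * Complex.I * ((m : ℂ) + 1) * τ)

/-- the modular invariant `j = q⁻¹ + 744 + 196884 q + ⋯` -/
noncomputable def J (τ : ℂ) : ℂ := 1728 * E4 τ ^ 3 / (E4 τ ^ 3 - E6 τ ^ 2)

/-- `z` is equivalent under `GL_2^+(ℚ)` to a point `w` of the upper half-plane with `j(w) = a` or `j(w) = -a`. -/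
def Isogenous (a z : ℂ) : Prop :=
  ∃ w : ℂ, 0 < w.im ∧ (J w = a ∨ J w = -a) ∧
    ∃ x y x' y' : ℚ, 0 < x * y' - y * x' ∧ z = ((x : ℂ) * w + y) / ((x' : ℂ) * w + y')

/-- For some points `z_1, …, z_k`, with `z_i` equivalent to a point `w_i` with `j(w_i) = a_i` or `-a_i`, the numbers
`z_1, …, z_k` satisfy a polynomial relation of total degree at most `δ`, not trivial, with coefficients in `V`. -/
def Exceptional (δ : ℕ) (V : Submodule ℚ ℂ) {k : ℕ} (a : Fin k → ℂ) : Prop :=
  ∃ z : Fin k → ℂ, (∀ i, Isogenous (a i) (z i)) ∧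
    ∃ P : MvPolynomial (Fin k) ℂ, P ≠ 0 ∧ P.totalDegree ≤ δ ∧ (∀ s, P.coeff s ∈ V) ∧ MvPolynomial.eval z P = 0

theorem J_eq : J = Pool.Agent.TH21.MS.jj := by
  have h4 : E4 = Pool.Agent.TH21.MS.E4 := funext Pool.Agent.Y120.J.E4_same
  have h6 : E6 = Pool.Agent.TH21.MS.E6 := funext Pool.Agent.Y120.J.E6_same
  funext τ
  unfold J Pool.Agent.TH21.MS.jj
  rw [h4, h6]

theorem exc {δ : ℕ} {V : Submodule ℚ ℂ} {k : ℕ} {a : Fin k → ℂ} (h : Exceptional δ V a) : Pool.Agent.X120.JG.ExI δ V a := by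
  obtain ⟨z, hz, P, hP⟩ := h
  choose w hw hwt x y x' y' hdet hzw using hz
  refine ⟨z, fun i => ⟨w i, hw i⟩, fun i => ?_, fun i => ?_, P, hP⟩
  · have h1 := hwt i
    rw [J_eq] at h1
    exact h1
  · exact Pool.Agent.Y120.J.toM4 ⟨x i, y i, x' i, y' i, (hdet i).ne', hzw i⟩

/-- **The theorem.** -/
theorem result (k : ℕ) (b : Fin k → ℕ) (hb : ∀ i, 2 ≤ b i) :
    (∀ δ D : ℕ, ∃ C : ℝ, 0 ≤ C ∧ ∀ (V : Submodule ℚ ℂ), Module.Finite ℚ V → Module.finrank ℚ V ≤ D → ∀ N : ℕ, 2 ≤ N →
      (({n : Fin k → ℕ | (∀ i, 1 ≤ n i ∧ n i ≤ N) ∧ Exceptional δ V fun i => (b i : ℂ) ^ n i}.ncard : ℕ) : ℝ) * N ≤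
        C * (N : ℝ) ^ k * Real.log N) ∧
    (∃ (M : ℕ → ℕ) (ε : ℕ → ℝ), Tendsto M atTop atTop ∧ Tendsto ε atTop (nhds 0) ∧
      ∀ N : ℕ, 2 ≤ N → ∀ (V : Submodule ℚ ℂ), Module.Finite ℚ V → Module.finrank ℚ V ≤ M N →
      (({n : Fin k → ℕ | (∀ i, 1 ≤ n i ∧ n i ≤ N) ∧ Exceptional (M N) V fun i => (b i : ℂ) ^ n i}.ncard : ℕ) : ℝ) ≤
        ε N * (N : ℝ) ^ k) := by
  have hmain : ∀ δ D : ℕ, ∃ C : ℝ, 0 ≤ C ∧ ∀ (V : Submodule ℚ ℂ), Module.Finite ℚ V → Module.finrank ℚ V ≤ D → ∀ N : ℕ, 2 ≤ N →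
      (({n : Fin k → ℕ | (∀ i, 1 ≤ n i ∧ n i ≤ N) ∧ Exceptional δ V fun i => (b i : ℂ) ^ n i}.ncard : ℕ) : ℝ) * N ≤
        C * (N : ℝ) ^ k * Real.log N := by
    intro δ D
    obtain ⟨C, hC, h1⟩ := Pool.Agent.X120.JG.isoN k δ D hb
    refine ⟨C, hC, ?_⟩
    intro V hVf hV N hN
    refine le_trans (mul_le_mul_of_nonneg_right ?_ (Nat.cast_nonneg _)) (h1 V hV N hN)
    have hfin : {t : Fin k → ℕ | (∀ i, 1 ≤ t i ∧ t i ≤ N) ∧ Pool.Agent.X120.JG.ExI δ V fun i => (b i : ℂ) ^ t i}.Finite := by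
      refine (Set.finite_Iic (fun _ : Fin k => N)).subset ?_
      intro t ht i
      exact (ht.1 i).2
    have hsub : {n : Fin k → ℕ | (∀ i, 1 ≤ n i ∧ n i ≤ N) ∧ Exceptional δ V fun i => (b i : ℂ) ^ n i} ⊆
        {t : Fin k → ℕ | (∀ i, 1 ≤ t i ∧ t i ≤ N) ∧ Pool.Agent.X120.JG.ExI δ V fun i => (b i : ℂ) ^ t i} :=
      fun t ht => ⟨ht.1, exc ht.2⟩
    exact_mod_cast Set.ncard_le_ncard hsub hfin
  refine ⟨hmain, ?_⟩
  choose C hC hcount using hmain
  obtain ⟨M, hM, hε⟩ := Pool.Agent.Y123.GN.diag_seq (fun D N => C D D * (Real.log N / N)) (by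
      intro D
      have h1 : Tendsto (fun N : ℕ => Real.log N / N) atTop (nhds 0) :=
        (Real.isLittleO_log_id_atTop.tendsto_div_nhds_zero).comp tendsto_natCast_atTop_atTop
      have h5 := h1.const_mul (C D D)
      rw [mul_zero] at h5
      exact h5)
  refine ⟨M, _, hM, hε, ?_⟩
  intro N hN V hVf hV
  have h1 := hcount (M N) (M N) V hVf hV N hN
  have hN0 : (0 : ℝ) < N := by
    have : 0 < N := by omega
    exact_mod_cast this
  refine le_of_mul_le_mul_right (h1.trans (le_of_eq ?_)) hN0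
  field_simp

end Pool.Agent.Results.MP_47914d_nt.GeometricIsogenyClasses
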